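import Pool.Agent.H697.IR.MultLeft

/-!
# 2-to-1 games with perfect completeness: the clustering coefficient is the exact threshold

The clustering coefficient `clus` of a bipartite graph is the mean value of
`|N(v) ∩ N(v')| / |N(v) ∪ N(v')|` for a random edge `(u, v)` and a random neighbour `v'` of `u`.
`Gap(1, δ)` is the problem to tell value `1` from value at most `δ` for the 2-to-1 games with the
alphabet `q` (on both sides).

1. If all games of a class have at most `M` parallel edges between any two vertices and clustering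
   coefficient at least `γ`, then `Gap(1, δ)` is solved in polynomial time on this class, for all `q`
   and all `δ` with `M δ < γ`; so for all `δ < γ` on simple games.  If the clustering coefficient is
   at least `γ` from the right side (or from one of the two sides, which may depend on the game),
   this holds for `2 M δ < γ`.  So the conjecture for such a class is false unless `P = NP`, if
   `γ > 0`.
2. This is sharp.  For `0 ≤ γ < 1` and `δ > γ` there is a `δ' > 0` such that for all `q` the problem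
   `Gap(1, δ')` reduces in polynomial time to `Gap(1, δ)` for the simple games with clustering
   coefficient at least `γ`.
3. The games all of whose left vertices have degree `r` have clustering coefficient at least
   `1 / r`.  For `δ > 1 / r` there is a `δ' > 0` such that for all `q` the problem `Gap(1, δ')`
   reduces in polynomial time to `Gap(1, δ)` for these games.
4. So the 2-to-1 conjecture is equivalent to the statement that for all `0 < γ < δ < 1` some `q` makes
   `Gap(1, δ)` hard for clustering coefficient at least `γ`, and to the statement that for all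
   `r ≥ 2` and all `δ` in `(1 / r, 1)` some `q` makes `Gap(1, δ)` hard for the games with left
   degrees `r`.
5. For the simple games whose constraint graph belongs to a class `C` of graphs which is closed under
   lifts (coverings) of girth greater than `g`, either 1. applies with `γ = 1 / (8 D²)`, namely if
   `|E| ≤ D |V|` on `C`, or the conjecture for the class is equivalent to the conjecture, namely if
   there is no such `D`.

The definitions used in the statement are in `Pool/Agent/H697/CL/Easy.lean` (`jac`, `clus`,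
`Clustered`), `Pool/Agent/H697/IR/Defs.lean` (`mirror`), `Pool/Agent/H697/IR/MultDefs.lean` (`Mult`,
`SideClusteredM`), `Pool/Agent/H697/CL/Tup.lean` (`LeftReg`), `Pool/Agent/H697/CL/Real.lean` (`nb`,
`nR`), `Pool/Agent/H697/LF/Bound.lean` (`GraphClass`, `LiftClosed`, `Sparse`, `On`),
`Pool/Agent/H697/LF/Lift.lean` (`graphOf`, `IsLift`),
`Pool/Agent/H697/Exp/Girth.lean` (`GirthGT`), `Pool/Agent/H697/LC/Hard.lean` (`Hard`, `Easy`),
`Pool/Agent/H697/LC/Defs.lean` (`IsGame`, `Sat`, `numSat`, `Yes`, `No`),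
`Pool/Agent/H697/UG/Defs.lean` (`Game`, `Simple`, `cgraph`, `degL`),
`Pool/Agent/H697/UG/Complete.lean` (`edges`), `Pool/Agent/H697/Forest/Bip.lean` (`bip`) and
`Pool/Graph/R_seed8/NPC/` (`PolyTime`, `InNP`, `InP`, `InPP`, `bits`).
-/

namespace Pool.Agent.Results.MP_ec946a_lc.ClusteringThreshold

open Pool.Agent.H697 Pool.Agent.NPC Pool.Agent.H697.LC Pool.Agent.H697.LF Pool.Agent.H697.CL
open Pool.Agent.H697.IR (Mult SideClusteredM easy_of_multL easy_of_multS)
open Pool.Agent.H697.UG (Game)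

/-- The 2-to-1 conjecture with perfect completeness, for the games with the property `Cl`: for each
`δ` in `(0, 1)` there is an alphabet such that it is `NP`-hard to tell value `1` from value at most
`δ` for the games with the property `Cl`. -/
def TwoToOne (Cl : Game → Prop) : Prop :=
  ∀ δ : ℝ, 0 < δ → δ < 1 → ∃ q : ℕ, 0 < q ∧ Hard Cl (Yes 2 q q 0) (No 2 q q δ)

theorem two_mono {Cl Cl' : Game → Prop} (hCl : ∀ I, Cl I → Cl' I) (h : TwoToOne Cl) :
    TwoToOne Cl' := fun δ hδ hδ1 => by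
  obtain ⟨q, hq, hh⟩ := h δ hδ hδ1
  exact ⟨q, hq, hh.mono hCl (fun _ h => h) fun _ h => h⟩

/-- Transfer of the conjecture. -/
theorem two_transfer {Cl : Game → Prop} {δ δ' : ℝ} (hδ' : 0 < δ')
    (h : ∀ q : ℕ, 0 < q → Hard (fun _ => True) (Yes 2 q q 0) (No 2 q q δ') →
      Hard Cl (Yes 2 q q 0) (No 2 q q δ)) (hK : TwoToOne fun _ => True) :
    ∃ q : ℕ, 0 < q ∧ Hard Cl (Yes 2 q q 0) (No 2 q q δ) := by
  obtain ⟨q, hq, hh⟩ := hK (min δ' (1 / 2)) (lt_min hδ' (by norm_num))
    (lt_of_le_of_lt (min_le_right _ _) (by norm_num))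
  exact ⟨q, hq, h q hq (hh.mono (fun _ h => h) (fun _ h => h) fun _ h =>
    h.mono (min_le_left _ _))⟩

theorem two_iff_clustered : TwoToOne (fun _ => True) ↔
    ∀ γ δ : ℝ, 0 < γ → γ < δ → δ < 1 →
      ∃ q : ℕ, 0 < q ∧ Hard (Clustered γ) (Yes 2 q q 0) (No 2 q q δ) := by
  constructor
  · intro hK γ δ h0 h1 h2
    obtain ⟨δ', hδ', h⟩ := hard_clus_LC h0.le (h1.trans h2) h1
    exact two_transfer hδ' (fun q hq => (h 2 q q 0 hq hq).1) hK
  · intro h δ hδ hδ1
    obtain ⟨q, hq, hh⟩ := h (δ / 2) δ (by linarith) (by linarith) hδ1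
    exact ⟨q, hq, hh.mono (fun _ _ => trivial) (fun _ h => h) fun _ h => h⟩

theorem two_iff_leftReg : TwoToOne (fun _ => True) ↔
    ∀ r : ℕ, 2 ≤ r → ∀ δ : ℝ, 1 / r < δ → δ < 1 →
      ∃ q : ℕ, 0 < q ∧ Hard (LeftReg r) (Yes 2 q q 0) (No 2 q q δ) := by
  constructor
  · intro hK r hr δ h2 _
    obtain ⟨δ', hδ', h⟩ := hard_left_LC 2 (show 0 < r by omega) h2
    exact two_transfer hδ' (fun q hq => (h q q hq hq).1) hK
  · intro h δ hδ hδ1
    obtain ⟨n, hn⟩ := exists_nat_gt (1 / δ)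
    have h1 : (1 : ℝ) / ((n + 2 : ℕ) : ℝ) < δ := by
      rw [div_lt_iff₀ hδ] at hn
      rw [div_lt_iff₀ (by positivity)]
      push_cast
      nlinarith
    obtain ⟨q, hq, hh⟩ := h (n + 2) (by omega) δ h1 hδ1
    exact ⟨q, hq, hh.mono (fun _ _ => trivial) (fun _ h => h) fun _ h => h⟩

theorem two_of_dense {g : ℕ} {C : GraphClass} (hC : LiftClosed g C) (hs : ∀ D : ℕ, ¬ Sparse C D) :
    TwoToOne (On C) ↔ TwoToOne fun _ => True := by
  refine ⟨two_mono fun _ _ => trivial, fun hK δ hδ hδ1 => ?_⟩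
  obtain ⟨q, hq, hh⟩ := hK (δ / 2) (by linarith) (by linarith)
  obtain ⟨D, hD⟩ := LC_lift_reduction 2 hq hq (show δ / 2 < δ by linarith)
  exact ⟨q, hq, (hD g C hC (hs D)).1 hh⟩

/-- The conjecture for clustered games. -/
theorem two_collapse {Cl : Game → Prop} {M : ℕ} {γ : ℝ} (hγ : 0 < γ)
    (hCl : ∀ I, I ≠ [] → Cl I → SideClusteredM M γ I) (hK : TwoToOne Cl) :
    ∀ L : Set (List Bool), InNP L → InP L := by
  have hM : (0 : ℝ) ≤ M := by positivity
  set t : ℝ := min γ 1 / (4 * (M + 1)) with ht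
  have h0 : 0 < t := by positivity
  have h1 : min γ 1 ≤ γ := min_le_left _ _
  have h2 : min γ 1 ≤ 1 := min_le_right _ _
  have h3 : t * (4 * (M + 1)) = min γ 1 := by
    rw [ht]
    field_simp
  obtain ⟨q, hq, hhard⟩ := hK t h0 (by nlinarith)
  exact hhard.collapse (easy_of_multS hCl two_pos hq hq (by push_cast; nlinarith))

/-- The clustering coefficient is the exact threshold. -/
theorem result :
    ((∀ (Cl : Game → Prop) (M : ℕ) (γ : ℝ), (∀ I, I ≠ [] → Cl I → Mult M I ∧ γ ≤ clus I) →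
      ∀ (q : ℕ) (δ : ℝ), 0 < q → M * δ < γ → Easy Cl (Yes 2 q q 0) (No 2 q q δ)) ∧
    ∀ (Cl : Game → Prop) (M : ℕ) (γ : ℝ), (∀ I, I ≠ [] → Cl I → SideClusteredM M γ I) →
      (∀ (q : ℕ) (δ : ℝ), 0 < q → 2 * M * δ < γ → Easy Cl (Yes 2 q q 0) (No 2 q q δ)) ∧
      (0 < γ → TwoToOne Cl → ∀ L : Set (List Bool), InNP L → InP L)) ∧
    (∀ γ δ : ℝ, 0 ≤ γ → γ < 1 → γ < δ → ∃ δ' : ℝ, 0 < δ' ∧ ∀ q : ℕ, 0 < q →
      (Hard (fun _ => True) (Yes 2 q q 0) (No 2 q q δ') →
        Hard (Clustered γ) (Yes 2 q q 0) (No 2 q q δ)) ∧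
      (Easy (Clustered γ) (Yes 2 q q 0) (No 2 q q δ) →
        Easy (fun _ => True) (Yes 2 q q 0) (No 2 q q δ'))) ∧
    (∀ r : ℕ, 0 < r → (∀ I, I ≠ [] → LeftReg r I → Clustered (1 / r) I) ∧
      ∀ δ : ℝ, 1 / r < δ → ∃ δ' : ℝ, 0 < δ' ∧ ∀ q : ℕ, 0 < q →
        (Hard (fun _ => True) (Yes 2 q q 0) (No 2 q q δ') →
          Hard (LeftReg r) (Yes 2 q q 0) (No 2 q q δ)) ∧
        (Easy (LeftReg r) (Yes 2 q q 0) (No 2 q q δ) →
          Easy (fun _ => True) (Yes 2 q q 0) (No 2 q q δ'))) ∧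
    ((TwoToOne (fun _ => True) ↔ ∀ γ δ : ℝ, 0 < γ → γ < δ → δ < 1 →
        ∃ q : ℕ, 0 < q ∧ Hard (Clustered γ) (Yes 2 q q 0) (No 2 q q δ)) ∧
      (TwoToOne (fun _ => True) ↔ ∀ r : ℕ, 2 ≤ r → ∀ δ : ℝ, 1 / r < δ → δ < 1 →
        ∃ q : ℕ, 0 < q ∧ Hard (LeftReg r) (Yes 2 q q 0) (No 2 q q δ))) ∧
    ∀ (g : ℕ) (C : GraphClass), LiftClosed g C →
      (∀ D : ℕ, 0 < D → Sparse C D → ∀ I, I ≠ [] → On C I → Clustered (1 / (8 * D ^ 2)) I) ∧
      ((∀ D : ℕ, ¬ Sparse C D) → (TwoToOne (On C) ↔ TwoToOne fun _ => True)) := by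
  refine ⟨⟨fun Cl M γ hCl q δ hq h => easy_of_multL hCl 2 hq hq (by linarith),
    fun Cl M γ hCl => ⟨fun q δ hq h => easy_of_multS hCl two_pos hq hq
      (by push_cast; linarith), fun hγ hK => two_collapse hγ hCl hK⟩⟩, fun γ δ h0 h1 h => ?_,
    fun r hr => ⟨fun I hI h => clustered_of_leftReg hr hI h, fun δ h => ?_⟩,
    ⟨two_iff_clustered, two_iff_leftReg⟩,
    fun g C hC => ⟨fun D hD hs I hI hJ => clustered_of_sparse hD hs hI hJ,
      fun hs => two_of_dense hC hs⟩⟩
  · obtain ⟨δ', hδ', h⟩ := hard_clus_LC h0 h1 h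
    exact ⟨δ', hδ', fun q hq => h 2 q q 0 hq hq⟩
  · obtain ⟨δ', hδ', h⟩ := hard_left_LC 2 hr h
    exact ⟨δ', hδ', fun q hq => h q q hq hq⟩

end Pool.Agent.Results.MP_ec946a_lc.ClusteringThreshold
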