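import Pool.Agent.H697.RT.LCHard

/-!
# 2-to-1 games with perfect completeness on lift-closed classes of graphs: the exact threshold

Let `C` be a class of graphs such that for every finite member `G` there is a number `g` such that
all finite lifts (coverings) of `G` of girth greater than `g` belong to `C`.  For a real number `t`
let `ThrC t C` be the condition

  `e(S) ≤ |S| + (1 - t) |E(G)|` for all finite `G` in `C` without isolated vertices and all sets `S`
  of vertices of `G`, where `e(S)` is the number of the edges with both ends in `S`.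

So the threshold of the class, the least upper bound `t*` of all such `t`, is the infimum of
`(|E(G)| - e(S) + |S|) / |E(G)|`.

1. If `ThrC t C` holds and `δ < t`, then for every alphabet `q` the problem `Gap_q(1, δ)` for the
   2-to-1 games on `C` is solved in polynomial time.
2. If `ThrC t C` does not hold, then there is a `δ > 0` such that for every alphabet `q` the problem
   `Gap_q(1, t)` for the 2-to-1 games on `C` is hard, if `Gap_q(1, δ)` is hard for all 2-to-1 games,
   where hard means `NP`-hard under randomised reductions with one-sided error.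
3. For the graphs with all degrees at most `D ≥ 3` and girth greater than `g` the threshold is
   `2 / D`.  The 2-to-1 Games Conjecture with perfect completeness (with randomised reductions) is
   equivalent to the statement that for all `D ≥ 3`, for these graphs, and all `t > 2 / D` the
   problem `Gap_q(1, t)` is hard for some alphabet `q`.

The definitions used in the statement are in `Pool/Agent/H697/RT/UGHard.lean` (`LiftStable`,
`ThrC`), `Pool/Agent/H697/RT/Red.lean` (`Thr`), `Pool/Agent/H697/RT/RHard.lean` (`RHard`,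
`InCoRP`), `Pool/Agent/H697/RT/Deg.lean` (`Deg`), `Pool/Agent/H697/LF/Bound.lean`
(`GraphClass`, `On`), `Pool/Agent/H697/LF/Lift.lean` (`graphOf`, `IsLift`),
`Pool/Agent/H697/Exp/Girth.lean` (`GirthGT`), `Pool/Agent/H697/LC/Hard.lean` (`Hard`, `Easy`),
`Pool/Agent/H697/LC/Defs.lean` (`IsGame`, `Sat`, `numSat`, `Yes`, `No`),
`Pool/Agent/H697/UG/Defs.lean` (`Game`, `Simple`, `cgraph`), `Pool/Agent/H697/Forest/Bip.lean`
(`bip`) and `Pool/Graph/R_seed8/NPC/` (`PolyTime`, `InNP`, `InPP`, `bits`, `pairBits`).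
-/

namespace Pool.Agent.Results.MP_ec946a_lc.ExactThreshold

open Pool.Agent.H697 Pool.Agent.NPC Pool.Agent.H697.LC Pool.Agent.H697.LF Pool.Agent.H697.RT
  Pool.Agent.H697.Exp
open Pool.Agent.H697.UG (Game)

/-- The 2-to-1 Games Conjecture with perfect completeness for the games with the property `Cl`. -/
def TwoToOne (Cl : Game → Prop) : Prop :=
  ∀ δ : ℝ, 0 < δ → δ < 1 → ∃ q : ℕ, 0 < q ∧ Hard Cl (Yes 2 q q 0) (No 2 q q δ)

/-- The conjecture with hardness under randomised reductions. -/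
def RTwoToOne (Cl : Game → Prop) : Prop :=
  ∀ δ : ℝ, 0 < δ → δ < 1 → ∃ q : ℕ, 0 < q ∧ RHard Cl (Yes 2 q q 0) (No 2 q q δ)

theorem hard_on {C : GraphClass} (hC : LiftStable C) {t : ℝ} (ht : ¬ ThrC t C)
    (hK : RTwoToOne fun _ => True) :
    ∃ q : ℕ, 0 < q ∧ RHard (On C) (Yes 2 q q 0) (No 2 q q t) := by
  obtain ⟨δ, hδ, h⟩ := rhard_class_LC hC ht (d := 2) (by norm_num)
  obtain ⟨q, hq, hh⟩ := hK (min δ (1 / 2)) (by positivity)
    (lt_of_le_of_lt (min_le_right _ _) (by norm_num))
  exact ⟨q, hq, h q q hq hq (hh.mono (fun _ h => h) (fun _ h => h)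
    fun _ h => h.mono (min_le_left _ _))⟩

/-- The exact threshold of a lift-closed class. -/
theorem result :
    (∀ C : GraphClass, LiftStable C → ∀ t : ℝ,
      (ThrC t C → ∀ (q : ℕ) (δ : ℝ), 0 < q → δ < t →
        Easy (On C) (Yes 2 q q 0) (No 2 q q δ)) ∧
      (¬ ThrC t C →
        (∃ δ : ℝ, 0 < δ ∧ ∀ q : ℕ, 0 < q →
          RHard (fun _ => True) (Yes 2 q q 0) (No 2 q q δ) →
            RHard (On C) (Yes 2 q q 0) (No 2 q q t)) ∧
        (RTwoToOne (fun _ => True) →
          ∃ q : ℕ, 0 < q ∧ RHard (On C) (Yes 2 q q 0) (No 2 q q t)))) ∧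
    (∀ D g : ℕ, 2 ≤ D → LiftStable (Deg D g) ∧ ∀ t : ℝ, ThrC t (Deg D g) ↔ t ≤ 2 / D) ∧
    (∀ g : ℕ, RTwoToOne (fun _ => True) ↔ ∀ D : ℕ, 3 ≤ D → ∀ t : ℝ, 2 / D < t →
      ∃ q : ℕ, 0 < q ∧ RHard (On (Deg D g)) (Yes 2 q q 0) (No 2 q q t)) ∧
    (TwoToOne (fun _ => True) → RTwoToOne (fun _ => True)) ∧
    ∀ (Cl Y N : Game → Prop), RHard Cl Y N → Easy Cl Y N →
      ∀ L : Set (List Bool), InNP L → InCoRP L := by
  refine ⟨fun C hC t => ⟨fun h q δ hq hδ => easy_perfect 2 hq hq h hδ, fun h =>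
    ⟨?_, hard_on hC h⟩⟩,
    fun D g hD => ⟨liftStable_Deg D g, fun t => ⟨fun h => ?_, fun h => thrC_Deg hD g h⟩⟩,
    fun g => ⟨fun hK D hD t ht => ?_, fun h ε hε hε1 => ?_⟩, fun h ε hε hε1 => ?_,
    fun Cl Y N h h' => h.collapse h'⟩
  · obtain ⟨δ, hδ, h1⟩ := rhard_class_LC hC h (d := 2) (by norm_num)
    exact ⟨δ, hδ, fun q hq => h1 q q hq hq⟩
  · by_contra hcon
    exact not_thrC_Deg hD g (not_le.1 hcon) h
  · exact hard_on (liftStable_Deg D g) (not_thrC_Deg (by omega) g ht) hK
  · obtain ⟨n, hn⟩ := exists_nat_gt (2 / ε)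
    have hn2 : (2 : ℝ) / ((n + 3 : ℕ) : ℝ) < ε := by
      rw [div_lt_iff₀ hε] at hn
      rw [div_lt_iff₀ (by positivity)]
      push_cast
      nlinarith
    obtain ⟨q, hq, h1⟩ := h (n + 3) (by omega) ε hn2
    exact ⟨q, hq, h1.mono (fun _ _ => trivial) (fun _ h => h) fun _ h => h⟩
  · obtain ⟨q, hq, h1⟩ := h ε hε hε1
    exact ⟨q, hq, rhard_of_hard h1⟩

end Pool.Agent.Results.MP_ec946a_lc.ExactThreshold
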