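import Pool.Agent.H697.IR.Mult
import Pool.Agent.H697.IR.Reg

/-!
# The 2-to-1 conjecture (perfect completeness) on hereditary classes: a complete dichotomy

For a finite family `H` of finite graphs consider the 2-to-1 games with at most `M` parallel edges
between any two vertices whose constraint graph has no induced subgraph `H i`.  There is no
condition on the degrees.

* If some `H i` is a forest, then there is a `γ > 0`, which depends neither on the alphabet nor on
  `M`, such that value at least `1 - ε` and value at most `δ` are told apart in polynomial time on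
  this class for all `ε`, `δ` with `M (2 ε + 2 δ) < γ`.  So the 2-to-1 conjecture for this class is
  false unless `P = NP`.
* If no `H i` is a forest, then the 2-to-1 conjecture for this class is equivalent to the 2-to-1
  conjecture, even for regular constraint graphs without parallel edges.  More precisely, for every
  alphabet size `q` and all `δ < δ'` there is a `D`, the same for all families `H` without forests,
  such that `Gap_q(1, δ)` reduces in polynomial time to `Gap_q(1, δ')` for the simple games of this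
  class with a `D`-regular constraint graph.

The definitions used in the statement are in `Pool/Agent/H697/IR/Defs.lean` (`NoInd`),
`Pool/Agent/H697/IR/RegDefs.lean` (`Reg`, `RegInd`), `Pool/Agent/H697/IR/MultDefs.lean` (`Mult`,
`NoIndM`), `Pool/Agent/H697/LC/Hard.lean` (`Hard`,
`Easy`), `Pool/Agent/H697/LC/Defs.lean` (`IsGame`, `Sat`, `numSat`, `Yes`, `No`),
`Pool/Agent/H697/UG/Defs.lean` (`Game`, `Simple`, `cgraph`, `degL`, `degR`),
`Pool/Agent/H697/Forest/Bip.lean` (`bip`) and `Pool/Graph/R_seed8/NPC/` (`PolyTime`, `InNP`,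
`InP`, `InPP`, `bits`).
-/

namespace Pool.Agent.Results.MP_ec946a_lc.ForbiddenSubgraphs

open Pool.Agent.NPC Pool.Agent.H697.LC
open Pool.Agent.H697.UG (Game)
open Pool.Agent.H697.IR (NoIndM RegInd sideClusteredM_of_noIndM easy_mult_LC regular_LC
  noIndM_of_noInd)

/-- The 2-to-1 conjecture with perfect completeness for the games with the property `Cl`. -/
def TwoToOne (Cl : Game → Prop) : Prop :=
  ∀ δ : ℝ, 0 < δ → δ < 1 → ∃ q : ℕ, 0 < q ∧ Hard Cl (Yes 2 q q 0) (No 2 q q δ)

theorem twoToOne_mono {Cl Cl' : Game → Prop} (hCl : ∀ I, Cl I → Cl' I) (h : TwoToOne Cl) :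
    TwoToOne Cl' := fun δ hδ hδ1 => by
  obtain ⟨q, hq, hh⟩ := h δ hδ hδ1
  exact ⟨q, hq, hh.mono hCl (fun _ h => h) fun _ h => h⟩

/-- The dichotomy. -/
theorem result :
    (∀ {ι : Type} [Finite ι] (V : ι → Type) [∀ i, Finite (V i)] (H : ∀ i, SimpleGraph (V i)),
      (∀ i, (H i).IsAcyclic → ∃ γ : ℝ, 0 < γ ∧ ∀ M : ℕ,
        (∀ (q : ℕ) (ε δ : ℝ), 0 < q → M * (2 * ε + 2 * δ) < γ →
          Easy (NoIndM H M) (Yes 2 q q ε) (No 2 q q δ)) ∧
        (TwoToOne (NoIndM H M) → ∀ L : Set (List Bool), InNP L → InP L)) ∧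
      ((∀ i, ¬ (H i).IsAcyclic) →
        (∀ M : ℕ, 0 < M → (TwoToOne (NoIndM H M) ↔ TwoToOne fun _ => True)) ∧
        (TwoToOne (fun _ => True) ↔ ∀ δ : ℝ, 0 < δ → δ < 1 → ∃ q D : ℕ, 0 < q ∧
          Hard (RegInd H D) (Yes 2 q q 0) (No 2 q q δ)))) ∧
    ∀ (q : ℕ) (δ δ' : ℝ), 0 < q → δ < δ' → ∃ D : ℕ,
      ∀ {ι : Type} [Finite ι] (V : ι → Type) (H : ∀ i, SimpleGraph (V i)),
        (∀ i, ¬ (H i).IsAcyclic) →
          (Hard (fun _ => True) (Yes 2 q q 0) (No 2 q q δ) →
            Hard (RegInd H D) (Yes 2 q q 0) (No 2 q q δ')) ∧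
          (Easy (RegInd H D) (Yes 2 q q 0) (No 2 q q δ') →
            Easy (fun _ => True) (Yes 2 q q 0) (No 2 q q δ)) := by
  refine ⟨?_, fun q δ δ' hq h => regular_LC 2 hq hq h⟩
  intro ι _ V _ H
  constructor
  · intro i hi
    obtain ⟨γ, hγ, hcl⟩ := sideClusteredM_of_noIndM H i hi
    have heasy : ∀ (M q : ℕ) (ε δ : ℝ), 0 < q → M * (2 * ε + 2 * δ) < γ →
        Easy (NoIndM H M) (Yes 2 q q ε) (No 2 q q δ) := by
      intro M q ε δ hq h
      obtain ⟨P, hP, hsep⟩ := easy_mult_LC (d := 2) two_pos hq hq (M := M) (γ := γ) (ε := ε)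
        (δ := δ) (by push_cast; exact h)
      exact ⟨P, hP, fun I hI => ⟨fun hy => (hsep I (hcl M I hy.1.1 hI)).1 hy,
        fun hn => (hsep I (hcl M I hn.1.1 hI)).2 hn⟩⟩
    refine ⟨γ, hγ, fun M => ⟨heasy M, fun hT => ?_⟩⟩
    have hM : (0 : ℝ) ≤ M := by positivity
    set t : ℝ := min γ 1 / (4 * (M + 1)) with ht
    have h0 : 0 < t := by positivity
    have h1 : min γ 1 ≤ γ := min_le_left _ _
    have h2 : min γ 1 ≤ 1 := min_le_right _ _
    have h3 : t * (4 * (M + 1)) = min γ 1 := by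
      rw [ht]
      field_simp
    obtain ⟨q, hq, hhard⟩ := hT t h0 (by nlinarith)
    exact hhard.collapse (heasy M q 0 t hq (by nlinarith))
  · intro hH
    have hreg : TwoToOne (fun _ => True) → ∀ δ : ℝ, 0 < δ → δ < 1 → ∃ q D : ℕ, 0 < q ∧
        Hard (RegInd H D) (Yes 2 q q 0) (No 2 q q δ) := by
      intro hU δ hδ hδ1
      obtain ⟨q, hq, h⟩ := hU (δ / 2) (by linarith) (by linarith)
      obtain ⟨D, hD⟩ := regular_LC 2 hq hq (show δ / 2 < δ by linarith)
      exact ⟨q, D, hq, (hD V H hH).1 h⟩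
    refine ⟨fun M hM => ⟨twoToOne_mono fun _ _ => trivial, fun h δ hδ hδ1 => ?_⟩,
      ⟨hreg, fun h δ hδ hδ1 => ?_⟩⟩
    · obtain ⟨q, D, hq, hh⟩ := hreg h δ hδ hδ1
      exact ⟨q, hq, hh.mono (fun _ h => noIndM_of_noInd h.1 hM) (fun _ h => h) fun _ h => h⟩
    · obtain ⟨q, D, hq, hh⟩ := h δ hδ hδ1
      exact ⟨q, hq, hh.mono (fun _ _ => trivial) (fun _ h => h) fun _ h => h⟩

end Pool.Agent.Results.MP_ec946a_lc.ForbiddenSubgraphs
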